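import Mathlib

set_option autoImplicit false

namespace Q238.QI

/-- the three letters `x`, `y`, `z` -/
inductive Letter
  | x
  | y
  | z
  deriving DecidableEq

end Q238.QI
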