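import Pool.Agent.Q238.QI.Sum

set_option autoImplicit false

/-!
The transport identity between the two weightings.
-/

namespace Q238.QI

variable {K : Type} [Field K]

/-- weights of `Z_{N,q}` -/
def fA (q : K) : Letter → ℕ → ℕ → K
  | .x, α, _ => 1 / (1 - q ^ α)
  | .y, _, β => q ^ β / (1 - q ^ β)
  | .z, α, β => 1 / (1 - q ^ α) + q ^ β / (1 - q ^ β)

/-- weights of `(-1)^k Z_{N,1/q}` -/
def fB (q : K) : Letter → ℕ → ℕ → K
  | .x, α, _ => q ^ α / (1 - q ^ α)
  | .y, _, β => 1 / (1 - q ^ β)
  | .z, α, β => q ^ α / (1 - q ^ α) + 1 / (1 - q ^ β)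

/-- transport coefficients -/
def kap (q : K) (α β n : ℕ) : K :=
  q ^ n * ∏ i ∈ Finset.range n, ((1 - q ^ (α + i)) * (1 - q ^ i / q ^ β) / (1 - q ^ (i + 1)))

/-- shifted transport coefficients -/
def kapp (q : K) (α β n : ℕ) : K :=
  ∏ i ∈ Finset.range n, ((1 - q ^ (α + i + 1)) * (1 - q ^ (i + 1) / q ^ β) / (1 - q ^ (i + 1)))

lemma kap_zero (q : K) (α β : ℕ) : kap q α β 0 = 1 := by simp [kap]

lemma kapp_zero (q : K) (α β : ℕ) : kapp q α β 0 = 1 := by simp [kapp]

lemma kapp_succ (q : K) (α β n : ℕ) : kapp q α β (n + 1) =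
    kapp q α β n * ((1 - q ^ (α + n + 1)) * (1 - q ^ (n + 1) / q ^ β) / (1 - q ^ (n + 1))) := by
  rw [kapp, Finset.prod_range_succ]
  rfl

lemma kap_step (q : K) (α β n : ℕ) : kap q α β (n + 1) =
    kap q α β n * (q * ((1 - q ^ (α + n)) * (1 - q ^ n / q ^ β) / (1 - q ^ (n + 1)))) := by
  rw [kap, Finset.prod_range_succ, kap]
  ring

lemma kap_shift (q : K) (hq0 : q ≠ 0) (α β n : ℕ) :
    kap q (α + 1) β n = q ^ n * kapp q α (β + 1) n := by
  unfold kap kapp
  congr 1
  refine Finset.prod_congr rfl fun i _ => ?_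
  have h : q ^ i / q ^ β = q ^ (i + 1) / q ^ (β + 1) := by
    field_simp
    ring
  rw [h, show α + 1 + i = α + i + 1 by ring]

lemma kap_succ (q : K) (hq : ∀ m : ℕ, 1 ≤ m → q ^ m ≠ 1) (α β n : ℕ) :
    kap q α β (n + 1) = q ^ (n + 1) * ((1 - q ^ α) * (1 - 1 / q ^ β)) * kapp q α β n /
      (1 - q ^ (n + 1)) := by
  have hne : ∀ m : ℕ, (1 : K) - q ^ (m + 1) ≠ 0 := fun m => sub_ne_zero.mpr (hq _ (by omega)).symm
  unfold kap kapp
  rw [Finset.prod_div_distrib, Finset.prod_div_distrib, Finset.prod_mul_distrib,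
    Finset.prod_mul_distrib, Finset.prod_range_succ' (fun i => (1 : K) - q ^ (α + i)),
    Finset.prod_range_succ' (fun i => (1 : K) - q ^ i / q ^ β),
    Finset.prod_range_succ (fun i => (1 : K) - q ^ (i + 1))]
  have h1 : ∏ i ∈ Finset.range n, ((1 : K) - q ^ (i + 1)) ≠ 0 :=
    Finset.prod_ne_zero_iff.mpr fun i _ => hne i
  have h2 := hne n
  simp only [add_zero, pow_zero, ← add_assoc]
  field_simp

/-- the basic relation -/
lemma kapp_sub (q : K) (hq0 : q ≠ 0) (hq : ∀ m : ℕ, 1 ≤ m → q ^ m ≠ 1) (α β n : ℕ) :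
    kap q α (β + 1) (n + 1) + kapp q α (β + 1) n =
      q ^ (α + 1) / q ^ (β + 1) * kap q (α + 1) β n + kapp q α (β + 1) (n + 1) := by
  rw [kap_shift q hq0, kap_succ q hq, kapp_succ]
  have h2 : (1 : K) - q ^ (n + 1) ≠ 0 := sub_ne_zero.mpr (hq _ (by omega)).symm
  have h3 : q ^ (β + 1) ≠ 0 := pow_ne_zero _ hq0
  field_simp
  ring

/-- Abel summation -/
lemma abel (q : K) (hq0 : q ≠ 0) (hq : ∀ m : ℕ, 1 ≤ m → q ^ m ≠ 1) (α β r : ℕ) (f : ℕ → K) :
    ∑ n ∈ Finset.range (r + 2), kap q α (β + 1) n * f n =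
      q ^ (α + 1) / q ^ (β + 1) * ∑ m ∈ Finset.range (r + 1), kap q (α + 1) β m * f (m + 1) +
        (∑ n ∈ Finset.range (r + 1), kapp q α (β + 1) n * (f n - f (n + 1)) +
          kapp q α (β + 1) (r + 1) * f (r + 1)) := by
  induction r with
  | zero =>
    have h := kapp_sub q hq0 hq α β 0
    rw [Finset.sum_range_succ, Finset.sum_range_one, Finset.sum_range_one, Finset.sum_range_one,
      kap_zero, kap_zero, kapp_zero]
    rw [kap_zero, kapp_zero] at h
    linear_combination (f 1) * h
  | succ r ih =>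
    have h := kapp_sub q hq0 hq α β (r + 1)
    rw [Finset.sum_range_succ, ih, Finset.sum_range_succ _ (r + 1), Finset.sum_range_succ _ (r + 1)]
    linear_combination (f (r + 2)) * h

/-- each letter different from `x` has a letter `x` to its right -/
def Good : List Letter → Prop
  | [] => True
  | L :: w => (L ≠ .x → 1 ≤ w.count .x) ∧ Good w

/-- the transport of a letter, first form -/
lemma letter_zero (q : K) (hq0 : q ≠ 0) (hq : ∀ m : ℕ, 1 ≤ m → q ^ m ≠ 1) (L : Letter)
    (w : List Letter) (α r : ℕ) (h1 : L ≠ .y → 1 ≤ α) (h2 : L ≠ .x → 1 ≤ w.count .x) :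
    q ^ (α * (r + (L :: w).count .x)) * fA q L α (r + (L :: w).count .x) =
      fB q L α (r + (L :: w).count .x) * q ^ ((α + iy L) * (r + w.count .x)) := by
  cases L with
  | x =>
    simp only [fA, fB, iy, List.count_cons_self, add_zero]
    have : 1 - q ^ α ≠ 0 := sub_ne_zero.mpr (hq _ (h1 (by simp))).symm
    field_simp
    ring
  | y =>
    have e : (Letter.y :: w).count .x = w.count .x := by simp
    simp only [fA, fB, iy, e]
    have : 1 - q ^ (r + w.count .x) ≠ 0 :=
      sub_ne_zero.mpr (hq _ (by have := h2 (by simp); omega)).symm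
    field_simp
    ring
  | z =>
    have e : (Letter.z :: w).count .x = w.count .x := by simp
    simp only [fA, fB, iy, e, add_zero]
    have h3 : 1 - q ^ (r + w.count .x) ≠ 0 :=
      sub_ne_zero.mpr (hq _ (by have := h2 (by simp); omega)).symm
    have h4 : 1 - q ^ α ≠ 0 := sub_ne_zero.mpr (hq _ (h1 (by simp))).symm
    field_simp
    ring


lemma kx (q : K) (hq0 : q ≠ 0) (hq : ∀ m : ℕ, 1 ≤ m → q ^ m ≠ 1) (α β n : ℕ) :
    kap q α β n * (1 - q ^ (α + n)) = q ^ n * (1 - q ^ α) * kapp q α (β + 1) n := by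
  induction n with
  | zero => simp [kap_zero, kapp_zero]
  | succ n ih =>
    have h2 : (1 : K) - q ^ (n + 1) ≠ 0 := sub_ne_zero.mpr (hq _ (by omega)).symm
    have h : q ^ n / q ^ β = q ^ (n + 1) / q ^ (β + 1) := by
      field_simp
      ring
    rw [kap_step, kapp_succ, h]
    linear_combination (q * ((1 - q ^ (n + 1) / q ^ (β + 1)) / (1 - q ^ (n + 1))) *
      (1 - q ^ (α + n + 1))) * ih

lemma ky (q : K) (α β n : ℕ) :
    kap q (α + 1) β n * (1 - q ^ n / q ^ β) = q ^ n * (1 - 1 / q ^ β) * kapp q α β n := by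
  induction n with
  | zero => simp [kap_zero, kapp_zero]
  | succ n ih =>
    rw [kap_step, kapp_succ, show α + 1 + n = α + n + 1 by ring]
    linear_combination (q * ((1 - q ^ (n + 1) / q ^ β) / (1 - q ^ (n + 1))) *
      (1 - q ^ (α + n + 1))) * ih

lemma kz (q : K) (α β n : ℕ) :
    kap q α β n * ((1 - q ^ (α + n)) * (1 - q ^ n / q ^ β)) =
      q ^ n * ((1 - q ^ α) * (1 - 1 / q ^ β)) * kapp q α β n := by
  induction n with
  | zero => simp [kap_zero, kapp_zero]
  | succ n ih =>
    rw [kap_step, kapp_succ, show α + (n + 1) = α + n + 1 by ring]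
    linear_combination (q * ((1 - q ^ (n + 1) / q ^ β) / (1 - q ^ (n + 1))) *
      (1 - q ^ (α + n + 1))) * ih

/-- the transport of a letter -/
lemma letter_n (q : K) (hq0 : q ≠ 0) (hq : ∀ m : ℕ, 1 ≤ m → q ^ m ≠ 1) (L : Letter)
    (w : List Letter) (α r n : ℕ) (hn : n ≤ r) (h1 : L ≠ .y → 1 ≤ α)
    (h2 : L ≠ .x → 1 ≤ w.count .x) :
    kapp q α (r + (L :: w).count .x) n * (fB q L (α + n) (r - n + (L :: w).count .x) *
      q ^ ((α + iy L) * (r + w.count .x))) =
    q ^ (α * (r + (L :: w).count .x)) * fA q L α (r + (L :: w).count .x) *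
      kap q (α + iy L) (r + w.count .x) n := by
  obtain ⟨s, rfl⟩ := Nat.exists_eq_add_of_le hn
  rw [Nat.add_sub_cancel_left]
  cases L with
  | x =>
    simp only [fA, fB, iy, List.count_cons_self, add_zero]
    have h3 : 1 - q ^ α ≠ 0 := sub_ne_zero.mpr (hq _ (h1 (by simp))).symm
    have h4 : 1 - q ^ (α + n) ≠ 0 := sub_ne_zero.mpr (hq _ (by have := h1 (by simp); omega)).symm
    have h5 := kx q hq0 hq α (n + s + w.count .x) n
    rw [← add_assoc]
    have e1 : kap q α (n + s + w.count .x) n =
        q ^ n * (1 - q ^ α) * kapp q α (n + s + w.count .x + 1) n / (1 - q ^ (α + n)) := by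
      rw [← h5]
      field_simp
    rw [e1]
    field_simp
    ring
  | y =>
    have e : (Letter.y :: w).count .x = w.count .x := by simp
    simp only [fA, fB, iy, e]
    have hX := h2 (by simp)
    have h3 : 1 - q ^ (n + s + w.count .x) ≠ 0 := sub_ne_zero.mpr (hq _ (by omega)).symm
    have h4 : 1 - q ^ (s + w.count .x) ≠ 0 := sub_ne_zero.mpr (hq _ (by omega)).symm
    have h5 := ky q α (n + s + w.count .x) n
    have e2 : q ^ n / q ^ (n + s + w.count .x) = 1 / q ^ (s + w.count .x) := by
      field_simp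
      ring
    have h6 : q ^ (s + w.count .x) - 1 ≠ 0 := sub_ne_zero.mpr (hq _ (by omega))
    have e1 : kap q (α + 1) (n + s + w.count .x) n =
        q ^ n * (1 - 1 / q ^ (n + s + w.count .x)) * kapp q α (n + s + w.count .x) n /
          (1 - 1 / q ^ (s + w.count .x)) := by
      rw [← h5, e2]
      have : (1 : K) - 1 / q ^ (s + w.count .x) ≠ 0 := by
        intro h
        apply h6
        field_simp at h
        rw [mul_zero] at h
        exact h
      field_simp
    rw [e1]
    have h7 : (1 : K) - 1 / q ^ (s + w.count .x) = (q ^ (s + w.count .x) - 1) / q ^ (s + w.count .x) := by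
      field_simp
    have h8 : (1 : K) - 1 / q ^ (n + s + w.count .x) =
        (q ^ (n + s + w.count .x) - 1) / q ^ (n + s + w.count .x) := by
      field_simp
    rw [h7, h8]
    have h9 : q ^ (n + s + w.count .x) - 1 ≠ 0 := sub_ne_zero.mpr (hq _ (by omega))
    have h10 : (1 : K) / (1 - q ^ (s + w.count .x)) = -(1 / (q ^ (s + w.count .x) - 1)) := by
      rw [← neg_sub, div_neg]
    have h11 : q ^ (n + s + w.count .x) / (1 - q ^ (n + s + w.count .x)) =
        -(q ^ (n + s + w.count .x) / (q ^ (n + s + w.count .x) - 1)) := by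
      rw [← neg_sub, div_neg]
    rw [h10, h11]
    field_simp
    ring
  | z =>
    have e : (Letter.z :: w).count .x = w.count .x := by simp
    simp only [fA, fB, iy, e, add_zero]
    have hX := h2 (by simp)
    have h3 : 1 - q ^ α ≠ 0 := sub_ne_zero.mpr (hq _ (h1 (by simp))).symm
    have h4 : 1 - q ^ (α + n) ≠ 0 := sub_ne_zero.mpr (hq _ (by have := h1 (by simp); omega)).symm
    have h6 : q ^ (s + w.count .x) - 1 ≠ 0 := sub_ne_zero.mpr (hq _ (by omega))
    have h9 : q ^ (n + s + w.count .x) - 1 ≠ 0 := sub_ne_zero.mpr (hq _ (by omega))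
    have h5 := kz q α (n + s + w.count .x) n
    have e2 : q ^ n / q ^ (n + s + w.count .x) = 1 / q ^ (s + w.count .x) := by
      field_simp
      ring
    have h12 : (1 : K) - 1 / q ^ (s + w.count .x) ≠ 0 := by
      intro h
      apply h6
      field_simp at h
      rw [mul_zero] at h
      exact h
    have e1 : kap q α (n + s + w.count .x) n =
        q ^ n * ((1 - q ^ α) * (1 - 1 / q ^ (n + s + w.count .x))) *
          kapp q α (n + s + w.count .x) n / ((1 - q ^ (α + n)) * (1 - 1 / q ^ (s + w.count .x))) := by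
      rw [← h5, e2]
      field_simp
    rw [e1]
    have h7 : (1 : K) - 1 / q ^ (s + w.count .x) = (q ^ (s + w.count .x) - 1) / q ^ (s + w.count .x) := by
      field_simp
    have h8 : (1 : K) - 1 / q ^ (n + s + w.count .x) =
        (q ^ (n + s + w.count .x) - 1) / q ^ (n + s + w.count .x) := by
      field_simp
    rw [h7, h8]
    have h10 : (1 : K) / (1 - q ^ (s + w.count .x)) = -(1 / (q ^ (s + w.count .x) - 1)) := by
      rw [← neg_sub, div_neg]
    have h11 : q ^ (n + s + w.count .x) / (1 - q ^ (n + s + w.count .x)) =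
        -(q ^ (n + s + w.count .x) / (q ^ (n + s + w.count .x) - 1)) := by
      rw [← neg_sub, div_neg]
    rw [h10, h11]
    field_simp
    ring


/-- the transport identity -/
lemma transport (q : K) (hq0 : q ≠ 0) (hq : ∀ m : ℕ, 1 ≤ m → q ^ m ≠ 1) :
    ∀ (w : List Letter), Good w → ∀ r α : ℕ, (∀ L ∈ w.head?, L ≠ .y → 1 ≤ α) →
      q ^ (α * (r + w.count .x)) * S (fA q) w r α =
        ∑ n ∈ Finset.range (r + 1), kap q α (r + w.count .x) n * S (fB q) w (r - n) (α + n) := by
  intro w
  induction w with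
  | nil =>
    intro _ r
    induction r with
    | zero =>
      intro α _
      simp [S_nil, kap_zero]
    | succ r ih =>
      intro α _
      have h := abel q hq0 hq α r r (fun n => S (fB q) [] (r + 1 - n) (α + n))
      have ih' := ih (α + 1) (by simp)
      simp only [List.count_nil, add_zero, S_nil, mul_one, sub_self, mul_zero,
        Finset.sum_const_zero, zero_add] at h ih' ⊢
      rw [h, ← ih']
      have h0 : kapp q α (r + 1) (r + 1) = 0 := by
        rw [kapp_succ]
        have : q ^ (r + 1) ≠ 0 := pow_ne_zero _ hq0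
        rw [div_self this]
        ring
      rw [h0, add_zero]
      field_simp
      ring
  | cons L w ihw =>
    intro hg r
    obtain ⟨hg1, hg2⟩ := hg
    induction r with
    | zero =>
      intro α hα
      have h1 : L ≠ .y → 1 ≤ α := fun h => hα L (by simp) h
      have hα' : ∀ M ∈ w.head?, M ≠ .y → 1 ≤ α + iy L := by
        intro M _ _
        cases L <;> simp_all [iy]
      have ih := ihw hg2 0 (α + iy L) hα'
      have hl := letter_zero q hq0 hq L w α 0 h1 hg1
      simp only [zero_add, Finset.sum_range_one, kap_zero, one_mul, Nat.sub_zero, add_zero] at ih hl ⊢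
      rw [S_cons_zero, S_cons_zero, ← ih, ← mul_assoc, hl]
      ring
    | succ r ihr =>
      intro α hα
      have h1 : L ≠ .y → 1 ≤ α := fun h => hα L (by simp) h
      have hα' : ∀ M ∈ w.head?, M ≠ .y → 1 ≤ α + iy L := by
        intro M _ _
        cases L <;> simp_all [iy]
      have ih := ihw hg2 (r + 1) (α + iy L) hα'
      have ih2 := ihr (α + 1) (fun M _ _ => by omega)
      obtain ⟨X, hX⟩ : ∃ X, X = (L :: w).count .x := ⟨_, rfl⟩
      have hab := abel q hq0 hq α (r + X) r (fun n => S (fB q) (L :: w) (r + 1 - n) (α + n))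
      have e1 : r + 1 + (L :: w).count .x = r + X + 1 := by omega
      have e2 : ∑ m ∈ Finset.range (r + 1), kap q (α + 1) (r + X) m *
          S (fB q) (L :: w) (r + 1 - (m + 1)) (α + (m + 1)) =
          q ^ ((α + 1) * (r + X)) * S (fA q) (L :: w) r (α + 1) := by
        rw [hX, ih2]
        refine Finset.sum_congr rfl fun m _ => ?_
        rw [Nat.add_sub_add_right, show α + 1 + m = α + (m + 1) by ring]
      have e3 : ∀ n ∈ Finset.range (r + 1), kapp q α (r + X + 1) n *
          (S (fB q) (L :: w) (r + 1 - n) (α + n) -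
            S (fB q) (L :: w) (r + 1 - (n + 1)) (α + (n + 1))) =
          kapp q α (r + X + 1) n * (fB q L (α + n) (r + 1 - n + X) *
            S (fB q) w (r + 1 - n) (α + iy L + n)) := by
        intro n hn
        have hn' : n ≤ r := by simpa [Nat.lt_succ_iff] using hn
        obtain ⟨s, rfl⟩ := Nat.exists_eq_add_of_le hn'
        rw [show n + s + 1 - n = s + 1 by omega, show n + s + 1 - (n + 1) = s by omega,
          S_cons_succ, hX, show α + n + iy L = α + iy L + n by ring,
          show α + n + 1 = α + (n + 1) by ring]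
        ring
      have e4 : S (fB q) (L :: w) (r + 1 - (r + 1)) (α + (r + 1)) =
          fB q L (α + (r + 1)) (r + 1 - (r + 1) + X) *
            S (fB q) w (r + 1 - (r + 1)) (α + iy L + (r + 1)) := by
        rw [Nat.sub_self, S_cons_zero, hX, zero_add,
          show α + (r + 1) + iy L = α + iy L + (r + 1) by ring]
      have e5 : q ^ ((α + iy L) * (r + 1 + w.count .x)) *
          ∑ n ∈ Finset.range (r + 2), kapp q α (r + X + 1) n * (fB q L (α + n) (r + 1 - n + X) *
            S (fB q) w (r + 1 - n) (α + iy L + n)) =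
          q ^ (α * (r + X + 1)) * fA q L α (r + X + 1) *
            (q ^ ((α + iy L) * (r + 1 + w.count .x)) * S (fA q) w (r + 1) (α + iy L)) := by
        rw [ih, Finset.mul_sum, Finset.mul_sum]
        refine Finset.sum_congr rfl fun n hn => ?_
        have hn' : n ≤ r + 1 := by
          have := Finset.mem_range.mp hn
          omega
        have hl := letter_n q hq0 hq L w α (r + 1) n hn' h1 hg1
        rw [e1, ← hX] at hl
        linear_combination (S (fB q) w (r + 1 - n) (α + iy L + n)) * hl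
      rw [e2, Finset.sum_congr rfl e3, e4, ← Finset.sum_range_succ] at hab
      have e6 := mul_left_cancel₀ (pow_ne_zero _ hq0) (e5.trans (by ring :
        q ^ (α * (r + X + 1)) * fA q L α (r + X + 1) *
            (q ^ ((α + iy L) * (r + 1 + w.count .x)) * S (fA q) w (r + 1) (α + iy L)) =
          q ^ ((α + iy L) * (r + 1 + w.count .x)) * (q ^ (α * (r + X + 1)) *
            fA q L α (r + X + 1) * S (fA q) w (r + 1) (α + iy L))))
      rw [e6] at hab
      rw [e1, hab, S_cons_succ, show r + 1 + (L :: w).count .x = r + X + 1 from e1]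
      have e7 : q ^ (α + 1) / q ^ (r + X + 1) * (q ^ ((α + 1) * (r + X)) *
          S (fA q) (L :: w) r (α + 1)) = q ^ (α * (r + X + 1)) * S (fA q) (L :: w) r (α + 1) := by
        field_simp
        ring
      rw [e7]
      ring


/-- the two weightings give the same sum -/
theorem S_eq (q : K) (hq0 : q ≠ 0) (hq : ∀ m : ℕ, 1 ≤ m → q ^ m ≠ 1) (w : List Letter)
    (hg : Good w) (hy : ∀ L ∈ w.head?, L = .y) (N : ℕ) :
    S (fA q) w N 0 = S (fB q) w N 0 := by
  have h := transport q hq0 hq w hg N 0 (fun L hL hne => absurd (hy L hL) hne)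
  rw [zero_mul, pow_zero, one_mul, Finset.sum_range_succ'] at h
  rw [h, kap_zero, Finset.sum_eq_zero]
  · simp
  · intro n _
    have : kap q 0 (N + w.count .x) (n + 1) = 0 := by
      unfold kap
      rw [Finset.prod_range_succ']
      simp
    rw [this, zero_mul]

end Q238.QI
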