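import Pool.Agent.Q238.QI.Letter

set_option autoImplicit false

/-!
Sums over monotone sequences attached to words in three letters: recursions.
-/

namespace Q238.QI

/-- `1` for the letter `y`, `0` otherwise -/
def iy : Letter → ℕ
  | .y => 1
  | _ => 0

variable {K : Type} [Field K]

/-- the sum over monotone sequences `0 ≤ n_1 ≤ … ≤ n_k ≤ r` of `∏ f u_j (α + n_j + #{h < j : u_h = y})
(r - n_j + #{h ≥ j : u_h = x})` -/
noncomputable def S (f : Letter → ℕ → ℕ → K) (w : List Letter) (r α : ℕ) : K :=
  ∑ n : Fin w.length → Fin (r + 1) with Monotone n,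
    ∏ j : Fin w.length, f w[j] (α + (n j : ℕ) + (w.take j).count .y)
      (r - (n j : ℕ) + (w.drop j).count .x)

lemma count_iy (L : Letter) (w : List Letter) : (L :: w).count .y = iy L + w.count .y := by
  cases L <;> simp [iy, add_comm]

lemma S_nil (f : Letter → ℕ → ℕ → K) (r α : ℕ) : S f [] r α = 1 := by
  unfold S
  rw [Finset.sum_filter]
  simp [Subsingleton.monotone]

/-- monotone functions on `Fin (k+1)` with first value `0`, or all values positive -/
lemma mono_split {k r : ℕ} (G : (Fin (k + 1) → Fin (r + 2)) → K) :
    ∑ n : Fin (k + 1) → Fin (r + 2) with Monotone n, G n =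
      (∑ n : Fin k → Fin (r + 2) with Monotone n, G (Fin.cons 0 n)) +
        ∑ n : Fin (k + 1) → Fin (r + 1) with Monotone n, G (fun i => (n i).succ) := by
  classical
  have h1 : (Finset.univ.filter fun n : Fin (k + 1) → Fin (r + 2) => Monotone n) =
      ((Finset.univ.filter fun n : Fin k → Fin (r + 2) => Monotone n).image
        fun n => (Fin.cons 0 n : Fin (k + 1) → Fin (r + 2))) ∪
      ((Finset.univ.filter fun n : Fin (k + 1) → Fin (r + 1) => Monotone n).image
        fun n i => (n i).succ) := by
    ext n
    simp only [Finset.mem_filter, Finset.mem_univ, true_and, Finset.mem_union, Finset.mem_image]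
    constructor
    · intro hn
      by_cases h0 : n 0 = 0
      · left
        refine ⟨fun i => n i.succ, ?_, ?_⟩
        · intro i j hij
          exact hn (Fin.succ_le_succ_iff.mpr hij)
        · funext i
          refine Fin.cases ?_ (fun i => ?_) i
          · simp [h0]
          · simp
      · right
        have hpos : ∀ i, n i ≠ 0 := by
          intro i hi
          have : n 0 ≤ n i := hn (Fin.zero_le i)
          rw [hi] at this
          exact h0 (Fin.le_zero_iff.mp this)
        refine ⟨fun i => (n i).pred (hpos i), ?_, ?_⟩
        · intro i j hij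
          exact Fin.pred_le_pred_iff.mpr (hn hij)
        · funext i
          simp
    · rintro (⟨m, hm, rfl⟩ | ⟨m, hm, rfl⟩)
      · intro i j hij
        refine Fin.cases (motive := fun i => i ≤ j → (Fin.cons 0 m : Fin (k + 1) → Fin (r + 2)) i ≤
          (Fin.cons 0 m : Fin (k + 1) → Fin (r + 2)) j) ?_ (fun i => ?_) i hij
        · intro _
          simp
        · refine Fin.cases (motive := fun j => i.succ ≤ j →
            (Fin.cons 0 m : Fin (k + 1) → Fin (r + 2)) i.succ ≤
              (Fin.cons 0 m : Fin (k + 1) → Fin (r + 2)) j) ?_ (fun j => ?_) j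
          · intro h
            exact absurd h (by simp [Fin.succ_ne_zero])
          · intro h
            simpa using hm (Fin.succ_le_succ_iff.mp h)
      · intro i j hij
        exact Fin.succ_le_succ_iff.mpr (hm hij)
  rw [h1, Finset.sum_union, Finset.sum_image, Finset.sum_image]
  · intro a _ b _ hab
    funext i
    exact Fin.succ_injective _ (congrFun hab i)
  · intro a _ b _ hab
    exact (Fin.cons_inj.mp hab).2
  · rw [Finset.disjoint_left]
    intro n hn hn'
    simp only [Finset.mem_image, Finset.mem_filter, Finset.mem_univ, true_and] at hn hn'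
    obtain ⟨m, _, rfl⟩ := hn
    obtain ⟨m', _, h⟩ := hn'
    have := congrFun h 0
    simp at this

lemma S_cons_succ (f : Letter → ℕ → ℕ → K) (L : Letter) (w : List Letter) (r α : ℕ) :
    S f (L :: w) (r + 1) α = f L α (r + 1 + (L :: w).count .x) * S f w (r + 1) (α + iy L) +
      S f (L :: w) r (α + 1) := by
  unfold S
  refine (mono_split (k := w.length) _).trans ?_
  congr 1
  · rw [Finset.mul_sum]
    refine Finset.sum_congr rfl fun n _ => ?_
    refine (Fin.prod_univ_succ (n := w.length) _).trans ?_
    congr 1
    refine Finset.prod_congr rfl fun j _ => ?_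
    simp only [Fin.cons_succ, Fin.val_succ, List.take_succ_cons, List.drop_succ_cons, count_iy]
    congr 1
    ring
  · refine Finset.sum_congr rfl fun n _ => ?_
    refine Finset.prod_congr rfl fun j _ => ?_
    simp only [Fin.val_succ]
    congr 1
    · ring
    · rw [Nat.add_sub_add_right]

lemma mono_zero {k : ℕ} (G : (Fin k → Fin 1) → K) :
    ∑ n : Fin k → Fin 1 with Monotone n, G n = G 0 := by
  rw [Finset.sum_eq_single_of_mem (0 : Fin k → Fin 1)]
  · simp only [Finset.mem_filter, Finset.mem_univ, true_and]
    intro i j _
    simp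
  · intro b _ hb
    exact absurd (Subsingleton.elim b 0) hb

lemma S_cons_zero (f : Letter → ℕ → ℕ → K) (L : Letter) (w : List Letter) (α : ℕ) :
    S f (L :: w) 0 α = f L α ((L :: w).count .x) * S f w 0 (α + iy L) := by
  unfold S
  rw [mono_zero, mono_zero]
  refine (Fin.prod_univ_succ (n := w.length) _).trans ?_
  congr 1
  · simp
  · refine Finset.prod_congr rfl fun j _ => ?_
    simp only [Fin.val_succ, List.take_succ_cons, List.drop_succ_cons, count_iy, Pi.zero_apply]
    congr 1
    simp
    ring

end Q238.QI
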